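import Pool.Agent.helper79.SX.Spec

set_option autoImplicit false
set_option linter.unusedVariables false

open Finset ArithmeticFunction

namespace Pool.Agent.SX

theorem PC3_frc {β : Type} (n : ℕ) (f : ℕ → β) : frc n f = f n := by
  cases n <;> rfl

theorem PC3_cdiv (a b : ℕ) : (a : ℝ) / b ≤ (cdiv a b : ℕ) := by
  rcases Nat.eq_zero_or_pos b with hb | hb
  · subst hb
    simp [cdiv]
  · have hb' : (0 : ℝ) < b := by exact_mod_cast hb
    rw [div_le_iff₀ hb']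
    have h1 : a ≤ cdiv a b * b := by
      unfold cdiv
      have h2 := Nat.div_add_mod (a + (b - 1)) b
      have h3 := Nat.mod_lt (a + (b - 1)) hb
      have h4 : b * ((a + (b - 1)) / b) = (a + (b - 1)) / b * b := mul_comm _ _
      omega
    exact_mod_cast h1

/-- Evaluation of the check. -/
theorem PC3_chk (hPCM : PCM_stmt) (T u a Y κ kv lam : ℕ) (bl : List (ℕ × ℕ × ℕ))
    (LSN L U : ℕ) (hc : chkLo T u a Y κ kv lam bl LSN L U = true) :
    ∃ s : ℕ, s = 16 * dig L (2 * Y - κ) + (bl.map (tm U a Y κ)).sum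
        + ∑ j ∈ range (min 180 ((Y + 1) * u) - a * u), td u a Y kv LSN (a * u + j)
        + cdiv (2 ^ 44 * (a * u) ^ 2) (kv * 2 ^ 16)
        + cdiv (2 ^ 44 * 204 * (a * u) ^ 2) (10 * kv * 2 ^ ((Y * u) / 10)) ∧
      (((Y + 1) * u ≤ 180 ∧ s * 1000 ≤ 2 ^ 44 * T) ∨
        (180 < (Y + 1) * u ∧ chkLam ((Y + 1) * u) (max (a * u) 180) lam = true ∧
          (s * 10 ^ 12 + dir1 (max (a * u) 180) ((Y + 1) * u) lam * 2 ^ 44 ≤
              2 ^ 44 * (T * 10 ^ 9) ∨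
            s * 10 ^ 12 + dir2 (max (a * u) 180) ((Y + 1) * u) lam * 2 ^ 44 ≤
              2 ^ 44 * (T * 10 ^ 9)))) := by
  refine ⟨_, rfl, ?_⟩
  unfold chkLo at hc
  rw [Bool.and_eq_true, Bool.or_eq_true, hPCM.1, hPCM.2.1, PC3_frc, Nat.ble_eq] at hc
  obtain ⟨h1, h2⟩ := hc
  by_cases h3 : (Y + 1) * u ≤ 180
  · left
    have h4 : Nat.ble ((Y + 1) * u) 180 = true := by
      rw [Nat.ble_eq]
      exact h3
    rw [h4, Bool.cond_true, Nat.ble_eq] at h2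
    exact ⟨h3, h2⟩
  · right
    have h4 : Nat.ble ((Y + 1) * u) 180 = false := by
      rw [← Bool.not_eq_true, Nat.ble_eq]
      exact h3
    rw [h4, Bool.cond_false, Bool.or_eq_true, Nat.ble_eq, Nat.ble_eq] at h2
    refine ⟨by omega, ?_, h2⟩
    rcases h1 with h1 | h1
    · exact absurd h1 h3
    · exact h1

theorem PC3_split (hSAD : SAD_stmt) (f : ℕ → ℝ) (h h' h'' : ℕ) (h1 : h ≤ h') (h2 : h' ≤ h'') :
    ∑ p ∈ Bl h h'', f p = ∑ p ∈ Bl h h', f p + ∑ p ∈ Bl h' h'', f p := by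
  have e1 : (2 : ℕ) ^ h ≤ 2 ^ h' := Nat.pow_le_pow_right (by norm_num) h1
  have e2 : (2 : ℕ) ^ h' ≤ 2 ^ h'' := Nat.pow_le_pow_right (by norm_num) h2
  rw [← Finset.sum_union]
  · apply Finset.sum_congr _ fun _ _ => rfl
    ext p
    rw [Finset.mem_union, hSAD.2.1, hSAD.2.1, hSAD.2.1]
    constructor
    · rintro ⟨a1, a2, a3, a4⟩
      by_cases h5 : p ^ 10 < 2 ^ h'
      · exact Or.inl ⟨a1, a2, a3, h5⟩
      · exact Or.inr ⟨a1, a2, by omega, a4⟩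
    · rintro (⟨a1, a2, a3, a4⟩ | ⟨a1, a2, a3, a4⟩)
      · exact ⟨a1, a2, a3, by omega⟩
      · exact ⟨a1, a2, by omega, a4⟩
  · rw [Finset.disjoint_left]
    intro p hp hq
    rw [hSAD.2.1] at hp hq
    have := hp.2.2.2
    have := hq.2.2.1
    omega

theorem PC3_empty (hSAD : SAD_stmt) (h : ℕ) : Bl h h = ∅ := by
  rw [Finset.eq_empty_iff_forall_notMem]
  intro p hp
  rw [hSAD.2.1] at hp
  have := hp.2.2.1
  have := hp.2.2.2
  omega

theorem PC3_range (hSAD : SAD_stmt) (f : ℕ → ℝ) (h N : ℕ) :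
    ∑ p ∈ Bl h (h + N), f p = ∑ j ∈ range N, ∑ p ∈ Bl (h + j) (h + j + 1), f p := by
  induction N with
  | zero => rw [Nat.add_zero, PC3_empty hSAD, Finset.sum_empty, Finset.sum_range_zero]
  | succ N ih =>
    rw [Finset.sum_range_succ, ← ih]
    exact PC3_split hSAD f h (h + N) (h + N + 1) (by omega) (by omega)

theorem PC3_log (p k : ℕ) (hp : 2 ^ k ≤ p ^ 10) : (k : ℝ) * (Real.log 2 / 10) ≤ Real.log p := by
  have h1 : (2 : ℝ) ^ k ≤ (p : ℝ) ^ 10 := by exact_mod_cast hp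
  have h2 := Real.log_le_log (by positivity) h1
  rw [Real.log_pow, Real.log_pow] at h2
  push_cast at h2
  linarith

theorem PC3_log' (p k : ℕ) (hp0 : 0 < p) (hp : p ^ 10 ≤ 2 ^ k) :
    Real.log p ≤ (k : ℝ) * (Real.log 2 / 10) := by
  have h1 : (p : ℝ) ^ 10 ≤ (2 : ℝ) ^ k := by exact_mod_cast hp
  have hp0' : (0 : ℝ) < p := by exact_mod_cast hp0
  have h2 := Real.log_le_log (by positivity) h1
  rw [Real.log_pow, Real.log_pow] at h2
  push_cast at h2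
  linarith

/-- `2 ^ (j / 10) ≤ p` if `2 ^ j ≤ p ^ 10`. -/
theorem PC3_root (p j : ℕ) (hp : 2 ^ j ≤ p ^ 10) : 2 ^ (j / 10) ≤ p := by
  have h1 : (2 ^ (j / 10)) ^ 10 ≤ p ^ 10 := by
    rw [← pow_mul]
    exact le_trans (Nat.pow_le_pow_right (by norm_num) (by omega)) hp
  exact (Nat.pow_le_pow_iff_left (by norm_num)).1 h1

/-- The weight. -/
noncomputable def PC3_w (H p : ℕ) : ℝ := 1 / (p : ℝ) * (1 - Real.log p / (H * (Real.log 2 / 10)))

theorem PC3_small1 (hSAD : SAD_stmt) (LSN : ℕ)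
    (hs : ∀ h, 28 ≤ h → h < 180 → sig h (h + 1) ≤ (dig LSN (h - 28) : ℝ) / 2 ^ 44)
    (j H : ℕ) (hj : 28 ≤ j) (hj' : j < 180) (hjH : j < H) :
    ∑ p ∈ Bl j (j + 1), PC3_w H p ≤
      ((dig LSN (j - 28) : ℝ) * ((H : ℝ) - j) / (2 * H)) / 2 ^ 44 := by
  have hl2 : 0 < Real.log 2 := Real.log_pos (by norm_num)
  have hH : (0 : ℝ) < H := by
    have : 0 < H := by omega
    exact_mod_cast this
  have hjH' : (j : ℝ) < H := by exact_mod_cast hjH
  have h1 : ∀ p ∈ Bl j (j + 1), PC3_w H p ≤ (2 / p : ℝ) * (((H : ℝ) - j) / (2 * H)) := by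
    intro p hp
    rw [hSAD.2.1] at hp
    obtain ⟨hp1, hp7, hp2, hp3⟩ := hp
    have hp0 : (0 : ℝ) < p := by
      have : 0 < p := by omega
      exact_mod_cast this
    have hlog := PC3_log p j hp2
    unfold PC3_w
    have h2 : (j : ℝ) / H ≤ Real.log p / (H * (Real.log 2 / 10)) := by
      rw [div_le_div_iff₀ hH (by positivity)]
      have : (j : ℝ) * (H * (Real.log 2 / 10)) = (j * (Real.log 2 / 10)) * H := by ring
      rw [this]
      exact mul_le_mul_of_nonneg_right hlog hH.le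
    have h3 : (2 / p : ℝ) * (((H : ℝ) - j) / (2 * H)) = 1 / (p : ℝ) * (1 - j / H) := by
      field_simp
    rw [h3]
    apply mul_le_mul_of_nonneg_left _ (by positivity)
    linarith
  calc ∑ p ∈ Bl j (j + 1), PC3_w H p
      ≤ ∑ p ∈ Bl j (j + 1), (2 / p : ℝ) * (((H : ℝ) - j) / (2 * H)) := Finset.sum_le_sum h1
    _ = sig j (j + 1) * (((H : ℝ) - j) / (2 * H)) := by
        rw [← Finset.sum_mul]; rfl
    _ ≤ ((dig LSN (j - 28) : ℝ) / 2 ^ 44) * (((H : ℝ) - j) / (2 * H)) := by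
        apply mul_le_mul_of_nonneg_right (hs j hj hj')
        apply div_nonneg (by linarith) (by positivity)
    _ = ((dig LSN (j - 28) : ℝ) * ((H : ℝ) - j) / (2 * H)) / 2 ^ 44 := by ring

theorem PC3_small2 (hSAD : SAD_stmt) (LSN : ℕ)
    (hs : ∀ h, 28 ≤ h → h < 180 → sig h (h + 1) ≤ (dig LSN (h - 28) : ℝ) / 2 ^ 44)
    (j : ℕ) (hj : 28 ≤ j) (hj' : j < 180) :
    ∑ p ∈ Bl j (j + 1), 1 / (p : ℝ) ^ 2 ≤
      ((dig LSN (j - 28) : ℝ) / (2 * 2 ^ (j / 10))) / 2 ^ 44 := by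
  have h1 : ∀ p ∈ Bl j (j + 1), 1 / (p : ℝ) ^ 2 ≤ (2 / p : ℝ) * (1 / (2 * 2 ^ (j / 10))) := by
    intro p hp
    rw [hSAD.2.1] at hp
    obtain ⟨hp1, hp7, hp2, hp3⟩ := hp
    have hp0 : (0 : ℝ) < p := by
      have : 0 < p := by omega
      exact_mod_cast this
    have h2 : (2 : ℝ) ^ (j / 10) ≤ p := by exact_mod_cast PC3_root p j hp2
    have h3 : (2 / p : ℝ) * (1 / (2 * 2 ^ (j / 10))) = 1 / (p * 2 ^ (j / 10)) := by
      field_simp
    rw [h3]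
    apply one_div_le_one_div_of_le (by positivity)
    rw [pow_two]
    exact mul_le_mul_of_nonneg_left h2 hp0.le
  calc ∑ p ∈ Bl j (j + 1), 1 / (p : ℝ) ^ 2
      ≤ ∑ p ∈ Bl j (j + 1), (2 / p : ℝ) * (1 / (2 * 2 ^ (j / 10))) := Finset.sum_le_sum h1
    _ = sig j (j + 1) * (1 / (2 * 2 ^ (j / 10))) := by
        rw [← Finset.sum_mul]; rfl
    _ ≤ ((dig LSN (j - 28) : ℝ) / 2 ^ 44) * (1 / (2 * 2 ^ (j / 10))) := by
        apply mul_le_mul_of_nonneg_right (hs j hj hj') (by positivity)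
    _ = ((dig LSN (j - 28) : ℝ) / (2 * 2 ^ (j / 10))) / 2 ^ 44 := by ring

/-- Sums of inverse squares. -/
theorem PC3_sq (F : Finset ℕ) (M : ℕ) (hM : 1 ≤ M) (hF : ∀ p ∈ F, M ≤ p) :
    ∑ p ∈ F, 1 / (p : ℝ) ^ 2 ≤ (2 : ℝ) / M := by
  have h1 : F ⊆ Finset.Ioo (M - 1) (F.sup id + 1) := by
    intro p hp
    rw [Finset.mem_Ioo]
    have h2 : id p ≤ F.sup id := Finset.le_sup hp
    have h3 := hF p hp
    simp only [id] at h2
    omega
  have h4 := sum_Ioo_inv_sq_le (α := ℝ) (M - 1) (F.sup id + 1)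
  have h5 : (((M - 1 : ℕ) : ℝ) + 1) = M := by
    have : ((M - 1 : ℕ) : ℝ) + 1 = ((M - 1 + 1 : ℕ) : ℝ) := by push_cast; ring
    rw [this, Nat.sub_add_cancel hM]
  rw [h5] at h4
  refine le_trans ?_ h4
  calc ∑ p ∈ F, 1 / (p : ℝ) ^ 2 = ∑ p ∈ F, ((p : ℝ) ^ 2)⁻¹ := by simp
    _ ≤ ∑ p ∈ Finset.Ioo (M - 1) (F.sup id + 1), ((p : ℝ) ^ 2)⁻¹ := by
        apply Finset.sum_le_sum_of_subset_of_nonneg h1
        intro i _ _
        positivity

/-- The two bounds for the direct part. -/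
theorem PC3_dir (hDIR : DIR_stmt) (hLPA : LPA_stmt) (hLPM : LPM_stmt) (hPCM : PCM_stmt)
    (hx H lam : ℕ) (h180 : 180 ≤ hx) (hxH : hx ≤ H) (hlam : chkLam H hx lam = true) :
    ∑ p ∈ Bl hx H, PC3_w H p ≤ (dir1 hx H lam : ℝ) / 10 ^ 12 ∧
      ∑ p ∈ Bl hx H, PC3_w H p ≤ (dir2 hx H lam : ℝ) / 10 ^ 12 := by
  have hx0 : (0 : ℝ) < hx := by
    have : 0 < hx := by omega
    exact_mod_cast this
  have hH0 : (0 : ℝ) < H := by
    have : 0 < H := by omega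
    exact_mod_cast this
  have hlog := hPCM.2.2.2 H hx lam (by omega) (by omega) hlam
  have hc1 := PC3_cdiv (10 ^ 9 * hx) H
  have hA : (10 : ℝ) ^ 9 * (Real.log ((H : ℝ) / hx) - 1 + (hx : ℝ) / H) ≤
      ((lam + cdiv (10 ^ 9 * hx) H - 10 ^ 9 : ℕ) : ℝ) := by
    have h1 : ((lam + cdiv (10 ^ 9 * hx) H : ℕ) : ℝ) ≤
        ((lam + cdiv (10 ^ 9 * hx) H - 10 ^ 9 : ℕ) : ℝ) + 10 ^ 9 := by
      have : lam + cdiv (10 ^ 9 * hx) H ≤ (lam + cdiv (10 ^ 9 * hx) H - 10 ^ 9) + 10 ^ 9 := by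
        omega
      exact_mod_cast this
    have h2 : (10 : ℝ) ^ 9 * Real.log ((H : ℝ) / hx) ≤ lam := by
      rw [le_div_iff₀ (by positivity)] at hlog
      linarith
    have h3 : (10 : ℝ) ^ 9 * ((hx : ℝ) / H) ≤ (cdiv (10 ^ 9 * hx) H : ℕ) := by
      refine le_trans (le_of_eq ?_) hc1
      push_cast
      ring
    push_cast at h1 h3 ⊢
    linarith
  have hB : ∀ κ' : ℕ, (κ' : ℝ) * 10 ^ 9 * ((1 - (hx : ℝ) / H) * (14.4269505 / hx)) ≤
      (cdiv (κ' * 14426950500 * (H - hx)) (H * hx) : ℕ) := by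
    intro κ'
    refine le_trans (le_of_eq ?_) (PC3_cdiv (κ' * 14426950500 * (H - hx)) (H * hx))
    rw [Nat.cast_mul, Nat.cast_mul, Nat.cast_sub hxH, Nat.cast_mul]
    field_simp
    norm_num
    ring
  constructor
  · have h1 := hDIR _ _ (by norm_num) (by norm_num) hLPA hx H h180 hxH
    have h2 : ∑ p ∈ Bl hx H, PC3_w H p ≤
      (1087 / 1000 : ℝ) * (Real.log ((H : ℝ) / hx) - 1 + (hx : ℝ) / H) +
        170 / 1000 * (1 - (hx : ℝ) / H) * (14.4269505 / hx) := h1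
    refine le_trans h2 ?_
    rw [le_div_iff₀ (by positivity)]
    have h3 := hB 170
    unfold dir1
    push_cast at h3 hA ⊢
    linarith
  · have h1 := hDIR _ _ (by norm_num) (by norm_num) hLPM hx H h180 hxH
    have h2 : ∑ p ∈ Bl hx H, PC3_w H p ≤
      (1 : ℝ) * (Real.log ((H : ℝ) / hx) - 1 + (hx : ℝ) / H) +
        1090 / 1000 * (1 - (hx : ℝ) / H) * (14.4269505 / hx) := h1
    refine le_trans h2 ?_
    rw [le_div_iff₀ (by positivity)]
    have h3 := hB 1090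
    unfold dir2
    push_cast at h3 hA ⊢
    linarith

/-- The primes of `Rg n h`. -/
theorem PC3_Rg (hSAD : SAD_stmt) (n h H : ℕ) (hn : 1 ≤ n) (hh : 30 ≤ h)
    (h2 : (n + 1) ^ 10 ≤ 2 ^ H) :
    ∑ p ∈ Rg n h, 1 / (p : ℝ) * wt n p ≤ ∑ p ∈ Bl h H, PC3_w H p ∧
      ∑ p ∈ Rg n h, 1 / (p : ℝ) ^ 2 ≤ ∑ p ∈ Bl h H, 1 / (p : ℝ) ^ 2 := by
  have hl2 : 0 < Real.log 2 := Real.log_pos (by norm_num)
  have hsub : Rg n h ⊆ Bl h H := by
    intro p hp
    unfold Rg at hp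
    rw [Finset.mem_filter, Finset.mem_range] at hp
    obtain ⟨hpn, hpp, hph⟩ := hp
    rw [hSAD.2.1]
    refine ⟨hpp, ?_, hph, ?_⟩
    · by_contra h7
      have h6 : p ≤ 6 := by omega
      have e1 : p ^ 10 ≤ 6 ^ 10 := Nat.pow_le_pow_left h6 10
      have e2 : (2 : ℕ) ^ 30 ≤ 2 ^ h := Nat.pow_le_pow_right (by norm_num) hh
      norm_num at e1 e2
      omega
    · have e1 : p ^ 10 < (n + 1) ^ 10 := Nat.pow_lt_pow_left hpn (by norm_num)
      omega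
  have hH0 : 0 < H := by
    by_contra h0
    have h0' : H = 0 := by omega
    subst h0'
    have e1 : (1 + 1) ^ 10 ≤ (n + 1) ^ 10 := Nat.pow_le_pow_left (by omega) 10
    norm_num at e1 h2
    omega
  have hH0' : (0 : ℝ) < H := by exact_mod_cast hH0
  have hlogn := PC3_log' (n + 1) H (by omega) h2
  have hlogn0 : 0 < Real.log ((n : ℝ) + 1) := by
    apply Real.log_pos
    have : (1 : ℝ) ≤ n := by exact_mod_cast hn
    linarith
  constructor
  · calc ∑ p ∈ Rg n h, 1 / (p : ℝ) * wt n p ≤ ∑ p ∈ Rg n h, PC3_w H p := by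
          apply Finset.sum_le_sum
          intro p hp
          have hp' := hsub hp
          rw [hSAD.2.1] at hp'
          unfold PC3_w wt
          apply mul_le_mul_of_nonneg_left _ (by positivity)
          have hp1 : (1 : ℝ) ≤ p := by
            have : 1 ≤ p := by omega
            exact_mod_cast this
          have hlp : 0 ≤ Real.log p := Real.log_nonneg hp1
          have h3 : Real.log p / (H * (Real.log 2 / 10)) ≤ Real.log p / Real.log ((n : ℝ) + 1) := by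
            apply div_le_div_of_nonneg_left hlp hlogn0
            push_cast at hlogn
            exact hlogn
          linarith
      _ ≤ ∑ p ∈ Bl h H, PC3_w H p := by
          apply Finset.sum_le_sum_of_subset_of_nonneg hsub
          intro p hp _
          rw [hSAD.2.1] at hp
          unfold PC3_w
          apply mul_nonneg (by positivity)
          have h3 := PC3_log' p H (by omega) hp.2.2.2.le
          have h4 : Real.log p / (H * (Real.log 2 / 10)) ≤ 1 := by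
            rw [div_le_one (by positivity)]
            exact h3
          linarith
  · apply Finset.sum_le_sum_of_subset_of_nonneg hsub
    intro p hp _
    positivity

/-- One term of the data region. -/
theorem PC3_td (hSAD : SAD_stmt) (u a Y kv LSN : ℕ) (hkv : 1 ≤ kv)
    (hs : ∀ h, 28 ≤ h → h < 180 → sig h (h + 1) ≤ (dig LSN (h - 28) : ℝ) / 2 ^ 44)
    (j : ℕ) (hj : 28 ≤ j) (hj' : j < 180) (hjH : j < (Y + 1) * u) :
    2 ^ 44 * (∑ p ∈ Bl j (j + 1), PC3_w ((Y + 1) * u) p +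
      2 * (((a * u : ℕ) : ℝ) ^ 2 / kv) * ∑ p ∈ Bl j (j + 1), 1 / (p : ℝ) ^ 2) ≤
      (td u a Y kv LSN j : ℝ) := by
  have h1 := PC3_small1 hSAD LSN hs j ((Y + 1) * u) hj hj' hjH
  have h2 := PC3_small2 hSAD LSN hs j hj hj'
  have hkv0 : (0 : ℝ) < kv := by exact_mod_cast hkv
  have h3 := PC3_cdiv (dig LSN (j - 28) * ((Y + 1) * u - j)) (2 * ((Y + 1) * u))
  have h4 := PC3_cdiv (dig LSN (j - 28) * (a * u) ^ 2) (kv * 2 ^ (j / 10))
  have h5 : ((dig LSN (j - 28) * ((Y + 1) * u - j) : ℕ) : ℝ) / ((2 * ((Y + 1) * u) : ℕ) : ℝ) =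
      (dig LSN (j - 28) : ℝ) * ((((Y + 1) * u : ℕ) : ℝ) - j) / (2 * (((Y + 1) * u : ℕ) : ℝ)) := by
    rw [Nat.cast_mul, Nat.cast_sub hjH.le, Nat.cast_mul]
    norm_num
  rw [h5] at h3
  have h6 : 2 * (((a * u : ℕ) : ℝ) ^ 2 / kv) * ∑ p ∈ Bl j (j + 1), 1 / (p : ℝ) ^ 2 ≤
      2 * (((a * u : ℕ) : ℝ) ^ 2 / kv) * (((dig LSN (j - 28) : ℝ) / (2 * 2 ^ (j / 10))) / 2 ^ 44) :=
    mul_le_mul_of_nonneg_left h2 (by positivity)
  have h7 : 2 ^ 44 * (2 * (((a * u : ℕ) : ℝ) ^ 2 / kv) *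
      (((dig LSN (j - 28) : ℝ) / (2 * 2 ^ (j / 10))) / 2 ^ 44)) =
      ((dig LSN (j - 28) * (a * u) ^ 2 : ℕ) : ℝ) / ((kv * 2 ^ (j / 10) : ℕ) : ℝ) := by
    push_cast
    field_simp
  have h8 : (2 : ℝ) ^ 44 * (((dig LSN (j - 28) : ℝ) * ((((Y + 1) * u : ℕ) : ℝ) - j) /
      (2 * (((Y + 1) * u : ℕ) : ℝ))) / 2 ^ 44) =
      (dig LSN (j - 28) : ℝ) * ((((Y + 1) * u : ℕ) : ℝ) - j) / (2 * (((Y + 1) * u : ℕ) : ℝ)) := by
    field_simp
  have h9 : (td u a Y kv LSN j : ℝ) =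
      (cdiv (dig LSN (j - 28) * ((Y + 1) * u - j)) (2 * ((Y + 1) * u)) : ℕ) +
      (cdiv (dig LSN (j - 28) * (a * u) ^ 2) (kv * 2 ^ (j / 10)) : ℕ) := by
    unfold td
    exact Nat.cast_add _ _
  rw [h9]
  linarith

/-- The remaining part. -/
theorem PC3_rem (hSAD : SAD_stmt) (h H : ℕ) (hhH : h ≤ H) :
    ∑ p ∈ Bl (h + (min 180 H - h)) H, 1 / (p : ℝ) ^ 2 ≤ 2 / 2 ^ 18 := by
  by_cases hH : H ≤ 180
  · have h1 : h + (min 180 H - h) = H := by omega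
    rw [h1, PC3_empty hSAD, Finset.sum_empty]
    norm_num
  · have h2 := PC3_sq (Bl (h + (min 180 H - h)) H) (2 ^ 18) (by norm_num) (by
      intro p hp
      rw [hSAD.2.1] at hp
      have h3 := PC3_root p _ hp.2.2.1
      refine le_trans (Nat.pow_le_pow_right (by norm_num) ?_) h3
      omega)
    refine le_trans h2 (le_of_eq ?_)
    norm_num

theorem PC3 (hPC1 : PC1_stmt) (hPCM : PCM_stmt) (hSAD : SAD_stmt) (hDIR : DIR_stmt)
    (hLPA : LPA_stmt) (hLPM : LPM_stmt) (hXSZ : XSZ_stmt) : PC3_stmt := by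
  intro T u a Y κ kv lam L U n LSN bl hu ha30 ha57 hY70 hY300 haY hκu hκ34 hn h1 h2 hTab hBlk
    hkv1 hkv hsig hT hchk
  have hu1 : 1 ≤ u := by omega
  obtain ⟨s, hs, hfin⟩ := PC3_chk hPCM T u a Y κ kv lam bl LSN L U hchk
  have hs2 : s * 1000 ≤ 2 ^ 44 * T := by
    rcases hfin with ⟨_, h3⟩ | ⟨_, _, h3 | h3⟩
    · exact h3
    · have h4 := le_trans (Nat.le_add_right _ _) h3
      have h5 : s * 1000 * 10 ^ 9 ≤ 2 ^ 44 * T * 10 ^ 9 := by
        calc s * 1000 * 10 ^ 9 = s * 10 ^ 12 := by ring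
          _ ≤ 2 ^ 44 * (T * 10 ^ 9) := h4
          _ = 2 ^ 44 * T * 10 ^ 9 := by ring
      exact Nat.le_of_mul_le_mul_right h5 (by positivity)
    · have h4 := le_trans (Nat.le_add_right _ _) h3
      have h5 : s * 1000 * 10 ^ 9 ≤ 2 ^ 44 * T * 10 ^ 9 := by
        calc s * 1000 * 10 ^ 9 = s * 10 ^ 12 := by ring
          _ ≤ 2 ^ 44 * (T * 10 ^ 9) := h4
          _ = 2 ^ 44 * T * 10 ^ 9 := by ring
      exact Nat.le_of_mul_le_mul_right h5 (by positivity)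
  have hM : (bl.map (tm U a Y κ)).sum < 2 ^ 60 := by
    have h3 : (bl.map (tm U a Y κ)).sum ≤ s := by
      rw [hs]
      omega
    have h4 : s * 1000 ≤ 2 ^ 44 * 1000 := le_trans hs2 (Nat.mul_le_mul_left _ hT)
    omega
  obtain ⟨hbt, hM2⟩ := hPCM.2.2.1 U a Y κ bl hM
  have hpc := hPC1 u a Y κ L U n bl hu1 ha30 haY hY300 hκu (by omega) hn h1 h2 hTab hBlk hbt
  have hh30 : 30 ≤ a * u := le_trans ha30 (Nat.le_mul_of_pos_right a hu1)
  have hhH : a * u ≤ (Y + 1) * u := Nat.mul_le_mul_right u (by omega)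
  obtain ⟨hR1, hR2⟩ := PC3_Rg hSAD n (a * u) ((Y + 1) * u) (by omega) hh30 h2
  have hkv0 : (0 : ℝ) < kv := by exact_mod_cast hkv1
  have hh0 : (0 : ℝ) < ((a * u : ℕ) : ℝ) := by
    have : 0 < a * u := by omega
    exact_mod_cast this
  obtain ⟨hX1, hX2, hX3⟩ := hXSZ n hn
  have hn0 : (128 : ℝ) ≤ n := by exact_mod_cast hn
  have hX0 : 0 < Xn n := by
    refine lt_of_lt_of_le ?_ hX1
    positivity
  have hV0 : 0 < V (Pr (a * u)) := (hSAD.2.2.2.2.1 (a * u) (a * u)).1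
  -- the sums over the blocks
  have hS1 := PC3_split hSAD (fun p => PC3_w ((Y + 1) * u) p) (a * u)
    (a * u + (min 180 ((Y + 1) * u) - a * u)) ((Y + 1) * u) (by omega) (by omega)
  have hS2 := PC3_split hSAD (fun p => 1 / (p : ℝ) ^ 2) (a * u)
    (a * u + (min 180 ((Y + 1) * u) - a * u)) ((Y + 1) * u) (by omega) (by omega)
  rw [PC3_range hSAD] at hS1 hS2
  have htd : 2 ^ 44 * (∑ j ∈ range (min 180 ((Y + 1) * u) - a * u),
        ∑ p ∈ Bl (a * u + j) (a * u + j + 1), PC3_w ((Y + 1) * u) p +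
      2 * (((a * u : ℕ) : ℝ) ^ 2 / kv) * ∑ j ∈ range (min 180 ((Y + 1) * u) - a * u),
        ∑ p ∈ Bl (a * u + j) (a * u + j + 1), 1 / (p : ℝ) ^ 2) ≤
      ∑ j ∈ range (min 180 ((Y + 1) * u) - a * u), (td u a Y kv LSN (a * u + j) : ℝ) := by
    rw [Finset.mul_sum, ← Finset.sum_add_distrib, Finset.mul_sum]
    apply Finset.sum_le_sum
    intro j hj
    rw [Finset.mem_range] at hj
    exact PC3_td hSAD u a Y kv LSN hkv1 hsig (a * u + j) (by omega) (by omega) (by omega)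
  have hrem := PC3_rem hSAD (a * u) ((Y + 1) * u) hhH
  have hc1 := PC3_cdiv (2 ^ 44 * (a * u) ^ 2) (kv * 2 ^ 16)
  have hc2 := PC3_cdiv (2 ^ 44 * 204 * (a * u) ^ 2) (10 * kv * 2 ^ ((Y * u) / 10))
  have hW : (2 : ℝ) ^ ((Y * u) / 10) ≤ (n : ℝ) + 1 := by
    have := PC3_root (n + 1) (Y * u) h1.le
    exact_mod_cast this
  have hW0 : (0 : ℝ) < 2 ^ ((Y * u) / 10) := by positivity
  have hq : 1 ≤ V (Pr (a * u)) * (((a * u : ℕ) : ℝ) ^ 2 / kv) := by
    rw [← mul_div_assoc, le_div_iff₀ hkv0, one_mul]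
    exact hkv
  -- the real value of the check
  have hsR : (s : ℝ) = 16 * (dig L (2 * Y - κ) : ℝ) + (((bl.map (tm U a Y κ)).sum : ℕ) : ℝ)
      + ∑ j ∈ range (min 180 ((Y + 1) * u) - a * u), (td u a Y kv LSN (a * u + j) : ℝ)
      + (cdiv (2 ^ 44 * (a * u) ^ 2) (kv * 2 ^ 16) : ℕ)
      + (cdiv (2 ^ 44 * 204 * (a * u) ^ 2) (10 * kv * 2 ^ ((Y * u) / 10)) : ℕ) := by
    rw [hs]
    simp only [Nat.cast_add, Nat.cast_mul, Nat.cast_sum, Nat.cast_ofNat]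
  have hlast : (s : ℝ) + 2 ^ 44 * ∑ p ∈ Bl (a * u + (min 180 ((Y + 1) * u) - a * u))
      ((Y + 1) * u), PC3_w ((Y + 1) * u) p ≤ 2 ^ 44 * ((T : ℝ) / 1000) := by
    rcases hfin with ⟨h3, h4⟩ | ⟨h3, h4, h5⟩
    · have h6 : a * u + (min 180 ((Y + 1) * u) - a * u) = (Y + 1) * u := by omega
      rw [h6, PC3_empty hSAD, Finset.sum_empty]
      have h7 : (s : ℝ) * 1000 ≤ 2 ^ 44 * T := by exact_mod_cast h4
      linarith
    · have h6 : a * u + (min 180 ((Y + 1) * u) - a * u) = max (a * u) 180 := by omega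
      rw [h6]
      obtain ⟨d1, d2⟩ := PC3_dir hDIR hLPA hLPM hPCM (max (a * u) 180) ((Y + 1) * u) lam
        (le_max_right _ _) (by omega) h4
      rcases h5 with h5 | h5
      · have h7 : (s : ℝ) * 10 ^ 12 + (dir1 (max (a * u) 180) ((Y + 1) * u) lam : ℕ) * 2 ^ 44 ≤
            2 ^ 44 * (T * 10 ^ 9) := by exact_mod_cast h5
        rw [le_div_iff₀ (by positivity)] at d1
        linarith
      · have h7 : (s : ℝ) * 10 ^ 12 + (dir2 (max (a * u) 180) ((Y + 1) * u) lam : ℕ) * 2 ^ 44 ≤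
            2 ^ 44 * (T * 10 ^ 9) := by exact_mod_cast h5
        rw [le_div_iff₀ (by positivity)] at d2
        linarith
  -- abbreviations
  generalize hq' : ((a * u : ℕ) : ℝ) ^ 2 / kv = q at htd hq
  generalize hSg1 : ∑ p ∈ Rg n (a * u), 1 / (p : ℝ) * wt n p = A1 at hpc hR1
  generalize hSg2 : ∑ p ∈ Rg n (a * u), 1 / (p : ℝ) ^ 2 = A2 at hpc hR2
  generalize hV : V (Pr (a * u)) = v at hpc hV0 hq hkv ⊢
  generalize hX : Xn n = x at hpc hX0 hX1 hX2 ⊢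
  have hq0 : 0 < q := by
    rw [← hq']
    positivity
  have hc1' : 2 ^ 44 * (2 * q * (2 / 2 ^ 18)) ≤
      ((cdiv (2 ^ 44 * (a * u) ^ 2) (kv * 2 ^ 16) : ℕ) : ℝ) := by
    refine le_trans (le_of_eq ?_) hc1
    rw [← hq']
    push_cast
    field_simp
    norm_num
  have hc2' : 2 ^ 44 * (204 / 10 * q / 2 ^ ((Y * u) / 10)) ≤
      ((cdiv (2 ^ 44 * 204 * (a * u) ^ 2) (10 * kv * 2 ^ ((Y * u) / 10)) : ℕ) : ℝ) := by
    refine le_trans (le_of_eq ?_) hc2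
    rw [← hq']
    push_cast
    field_simp
    norm_num
  generalize hWW : (2 : ℝ) ^ ((Y * u) / 10) = W at hc2' hW hW0
  -- the bracket
  have hbr : (dig L (2 * Y - κ) : ℝ) / 2 ^ 40 + A1 + M2 U a Y κ bl + 2 * q * A2 +
      204 / 10 * q / W ≤ (T : ℝ) / 1000 := by
    have e1 : A1 ≤ ∑ j ∈ range (min 180 ((Y + 1) * u) - a * u),
        ∑ p ∈ Bl (a * u + j) (a * u + j + 1), PC3_w ((Y + 1) * u) p +
        ∑ p ∈ Bl (a * u + (min 180 ((Y + 1) * u) - a * u)) ((Y + 1) * u),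
          PC3_w ((Y + 1) * u) p := le_trans hR1 (le_of_eq hS1)
    have e2 : A2 ≤ ∑ j ∈ range (min 180 ((Y + 1) * u) - a * u),
        ∑ p ∈ Bl (a * u + j) (a * u + j + 1), 1 / (p : ℝ) ^ 2 +
        2 / 2 ^ 18 := le_trans hR2 (le_trans (le_of_eq hS2) (by linarith))
    have e3 := mul_le_mul_of_nonneg_left e2 (by positivity : 0 ≤ 2 * q)
    have e4 : (dig L (2 * Y - κ) : ℝ) / 2 ^ 40 * 2 ^ 44 = 16 * (dig L (2 * Y - κ) : ℝ) := by
      ring
    have e5 : (0 : ℝ) < 2 ^ 44 := by positivity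
    rw [← mul_le_mul_iff_right₀ e5]
    rw [mul_add] at e3
    linarith
  -- the last term
  have hlt : 2 * (n : ℝ) ≤ x * v * (204 / 10 * q / W) := by
    have e1 : x * (204 / 10) / W ≤ x * v * (204 / 10 * q / W) := by
      have : x * v * (204 / 10 * q / W) = (x * (204 / 10) / W) * (v * q) := by ring
      rw [this]
      exact le_mul_of_one_le_right (by positivity) hq
    refine le_trans ?_ e1
    rw [le_div_iff₀ hW0]
    nlinarith
  have hA2 : 0 ≤ A2 := by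
    rw [← hSg2]
    exact Finset.sum_nonneg fun p _ => by positivity
  have hsq : 2 * x * A2 ≤ x * v * (2 * q * A2) := by
    have : x * v * (2 * q * A2) = (2 * x * A2) * (v * q) := by ring
    rw [this]
    exact le_mul_of_one_le_right (by positivity) hq
  have hfinal := mul_le_mul_of_nonneg_left hbr (by positivity : 0 ≤ x * v)
  refine le_trans ?_ hpc
  linarith

end Pool.Agent.SX
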